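import Pool.Agent.Helper462.Cb.Gamma
import Pool.Agent.Helper462.Cb.X1
import Pool.Agent.Helper462.Cb.X2
import Pool.Agent.Helper462.Cb.X3
import Pool.Agent.Helper462.Cb.X4

/-!
# MP_a53fda_al: the Cantor-Bendixson rank of the Ziegler spectrum of `k[X, δ]` is `1`, `2` or `∞`

Definitions: `Pool/Agent/Helper462/Zg/Defs.lean` (pp formulas, pure-injective modules, the Ziegler
spectrum and its topology) and `Pool/Agent/Helper462/Cb/Defs.lean` (Cantor-Bendixson derivatives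
`cb`, the rank `IsCBRank`, and `DiffPoly`, the differential polynomial ring). Right `R`-modules are
modules over `Rᵐᵒᵖ`.
-/

namespace Pool.Agent.Results.MP_a53fda_al.RankValues

open Zg Cb

universe u v

/-- `R` is a differential polynomial ring `k[X, δ]`: it contains `k` and an element `X` with
`X a - a X = δ a` for `a ∈ k`, and every element of `R` is uniquely a polynomial `∑ a_n X ^ n`. -/
def IsDiffPolyRing {k : Type u} [Field k] (δ : Derivation ℤ k k) (R : Type u) [Ring R] : Prop :=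
  ∃ (i : k →+* R) (X : R), (∀ a, X * i a - i a * X = i (δ a)) ∧
    Function.Bijective (fun p : ℕ →₀ k => p.sum fun n a => i a * X ^ n)

theorem isDiffPolyRing_iff {k : Type u} [Field k] (δ : Derivation ℤ k k) (R : Type u) [Ring R] :
    IsDiffPolyRing δ R ↔ Nonempty (DiffPoly δ R) := by
  constructor
  · rintro ⟨i, X, h1, h2⟩
    exact ⟨⟨i, X, fun a => by rw [← h1 a]; abel, h2⟩⟩
  · rintro ⟨h⟩
    exact ⟨h.i, h.X, fun a => by rw [h.comm a]; abel, h.bij⟩

theorem IsCBRank.unique {X : Type u} [TopologicalSpace X] {r r' : WithTop Ordinal.{v}}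
    (h : IsCBRank X r) (h' : IsCBRank X r') : r' = r := by
  rcases h with ⟨⟨β, hβ⟩, α, hα, hg⟩ | ⟨h1, h2⟩
  · rcases h' with ⟨-, α', hα', hg'⟩ | ⟨h1', -⟩
    · rw [hα, hα', hg.unique hg']
    · exact absurd hβ (h1' β).ne_empty
  · rcases h' with ⟨⟨β, hβ⟩, -⟩ | ⟨-, h2'⟩
    · exact absurd hβ (h1 β).ne_empty
    · rw [h2, h2']

/-- **Theorem (Puninski's conjecture).** For every field `k` of characteristic zero, every
derivation `δ` of `k` and `R = k[X, δ]`, the Cantor-Bendixson rank of the Ziegler spectrum of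
right `R`-modules is `1`, `2` or `∞`; the set of values of the rank is exactly `{1, 2, ∞}`. -/
theorem result :
    (∀ (k : Type u) [Field k] [CharZero k] (δ : Derivation ℤ k k) (R : Type u) [Ring R],
      IsDiffPolyRing δ R → ∃ r : WithTop Ordinal.{v}, IsCBRank (ZieglerSpectrum Rᵐᵒᵖ) r ∧
        (∀ r' : WithTop Ordinal.{v}, IsCBRank (ZieglerSpectrum Rᵐᵒᵖ) r' → r' = r) ∧
        (r = 1 ∨ r = 2 ∨ r = ⊤)) ∧
    {r : WithTop Ordinal.{v} | ∃ (k : Type u) (_ : Field k) (_ : CharZero k)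
      (δ : Derivation ℤ k k) (R : Type u) (_ : Ring R), IsDiffPolyRing δ R ∧
        IsCBRank (ZieglerSpectrum Rᵐᵒᵖ) r} = {1, 2, ⊤} := by
  have main : ∀ (k : Type u) [Field k] [CharZero k] (δ : Derivation ℤ k k) (R : Type u) [Ring R],
      IsDiffPolyRing δ R → ∃ r : WithTop Ordinal.{v}, IsCBRank (ZieglerSpectrum Rᵐᵒᵖ) r ∧
        (∀ r' : WithTop Ordinal.{v}, IsCBRank (ZieglerSpectrum Rᵐᵒᵖ) r' → r' = r) ∧
        (r = 1 ∨ r = 2 ∨ r = ⊤) := by
    intro k _ _ δ R _ hR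
    obtain ⟨h⟩ := (isDiffPolyRing_iff δ R).1 hR
    obtain ⟨h'⟩ := h.op
    rcases rank_cases.{u, v} h' with h1 | h1 | h1
    · exact ⟨1, h1, fun r' hr' => IsCBRank.unique h1 hr', Or.inl rfl⟩
    · exact ⟨2, h1, fun r' hr' => IsCBRank.unique h1 hr', Or.inr (Or.inl rfl)⟩
    · exact ⟨⊤, h1, fun r' hr' => IsCBRank.unique h1 hr', Or.inr (Or.inr rfl)⟩
  refine ⟨main, ?_⟩
  have ex : ∀ (k : Type u) [Field k] [CharZero k] (δ : Derivation ℤ k k)
      (r : WithTop Ordinal.{v}), (∀ (A : Type u) [Ring A], DiffPoly δ A →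
        IsCBRank (ZieglerSpectrum A) r) →
      ∃ (k : Type u) (_ : Field k) (_ : CharZero k)
      (δ : Derivation ℤ k k) (R : Type u) (_ : Ring R), IsDiffPolyRing δ R ∧
        IsCBRank (ZieglerSpectrum Rᵐᵒᵖ) r := by
    intro k _ _ δ r hr
    obtain ⟨A, _, ⟨h⟩⟩ := exists_diffPoly δ
    obtain ⟨h'⟩ := h.op
    exact ⟨k, inferInstance, inferInstance, δ, A, inferInstance,
      (isDiffPolyRing_iff δ A).2 ⟨h⟩, hr _ h'⟩
  ext r
  simp only [Set.mem_ofPred_eq, Set.mem_insert_iff, Set.mem_singleton_iff]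
  constructor
  · rintro ⟨k, _, _, δ, R, _, hR, hr⟩
    obtain ⟨r₀, -, h1, h2⟩ := main k δ R hR
    rw [h1 r hr]
    exact h2
  · rintro (rfl | rfl | rfl)
    · obtain ⟨k, _, _, δ, hk⟩ := ex_alpha.{u}
      exact ex k δ 1 (fun A _ h => rank_alpha h (HA_of_systems δ hk))
    · have : CharZero (ULift.{u} ℚ) :=
        ⟨fun a b h => by exact_mod_cast (congrArg ULift.down h : ((a : ℕ) : ℚ) = (b : ℕ))⟩
      exact ex (ULift.{u} ℚ) 0 2 (fun A _ h => rank_beta h 0 1 ex_beta)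
    · obtain ⟨k, _, _, δ, b₁, b₂, hk⟩ := ex_gamma_classes.{u}
      exact ex k δ ⊤ (fun A _ h => rank_gamma h (HG_of_classes δ b₁ b₂ hk))

end Pool.Agent.Results.MP_a53fda_al.RankValues
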